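import Pool.Agent.Helper10.RS.Goals

/-!
# Packet RS-TOPF
-/

open Finset

namespace Pool.Agent.Helper7.RS

open Pool.Agent.Helper10.RS
open scoped Pointwise

universe u v

theorem reg_congr {G : Type u} {H : Type v} [Group G] [Group H] (e : G ≃* H) (p : ℕ) :
    reg G p = reg H p := by
  unfold reg
  refine Nat.card_congr (e.toEquiv.subtypeEquiv fun g => ?_)
  have : orderOf (e g) = orderOf g := MulEquiv.orderOf_eq e g
  simp [this]

/-- an `r`-th prime power `r²` does not divide `n!` for `n < 2 r` -/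
theorem not_sq_dvd {r : ℕ} (hr : r.Prime) : ∀ n : ℕ, n < 2 * r → ¬ r ^ 2 ∣ n.factorial := by
  intro n
  induction n with
  | zero =>
    intro _ h
    have h1 : r ^ 2 ≤ 1 := by simpa using Nat.le_of_dvd (by simp) h
    have := hr.two_le
    nlinarith
  | succ n ih =>
    intro hn h
    rw [Nat.factorial_succ] at h
    by_cases hd : r ∣ n + 1
    · obtain ⟨c, hc⟩ := hd
      have hc1 : c = 1 := by
        have h0 : 0 < c := by
          rcases Nat.eq_zero_or_pos c with h | h
          · subst h; simp at hc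
          · exact h
        have h2 : c < 2 := by
          by_contra h3
          have : r * 2 ≤ r * c := Nat.mul_le_mul_left _ (by omega)
          omega
        omega
      subst hc1
      rw [mul_one] at hc
      rw [hc, pow_two] at h
      have h2 := Nat.dvd_of_mul_dvd_mul_left hr.pos h
      have h3 := (hr.dvd_factorial).1 h2
      omega
    · have hcop : Nat.Coprime (r ^ 2) (n + 1) :=
        Nat.Coprime.pow_left _ ((Nat.Prime.coprime_iff_not_dvd hr).2 hd)
      exact ih (by omega) (hcop.dvd_of_dvd_mul_left h)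

/-- conjugacy of subgroups of order `r` -/
theorem conj_of_card {H : Type u} [Group H] [Finite H] {r : ℕ} (hr : r.Prime)
    (h2 : ¬ r ^ 2 ∣ Nat.card H) (U V : Subgroup H) (hU : Nat.card U = r) (hV : Nat.card V = r) :
    ∃ g : H, ∀ x ∈ U, g * x * g⁻¹ ∈ V := by
  have : Fact r.Prime := ⟨hr⟩
  have hd : r ∣ Nat.card H := hU ▸ Subgroup.card_subgroup_dvd_card U
  have hf : (Nat.card H).factorization r = 1 := by
    have h1 : 1 ≤ (Nat.card H).factorization r :=
      (hr.dvd_iff_one_le_factorization Nat.card_pos.ne').1 hd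
    have h3 : ¬ 2 ≤ (Nat.card H).factorization r := fun h =>
      h2 ((hr.pow_dvd_iff_le_factorization Nat.card_pos.ne').2 h)
    omega
  let SU : Sylow r H := Sylow.ofCard U (by rw [hU, hf, pow_one])
  let SV : Sylow r H := Sylow.ofCard V (by rw [hV, hf, pow_one])
  obtain ⟨g, hg⟩ := MulAction.exists_smul_eq H SU SV
  refine ⟨g, fun x hx => ?_⟩
  have h4 : g * x * g⁻¹ ∈ (g • SU : Sylow r H) := by
    have : (MulAut.conj g) x ∈ MulAut.conj g • (SU : Subgroup H) :=
      Subgroup.smul_mem_pointwise_smul x (MulAut.conj g) _ hx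
    rw [MulAut.conj_apply] at this
    exact this
  rw [hg] at h4
  exact h4

theorem prod_low (M : ℕ) : ∀ N : ℕ, M ≤ N →
    1 - ((N : ℚ) - M) / (2 * (M + 1)) ≤ ∏ i ∈ Ioc M N, (1 - 1 / (((2 : ℕ) : ℚ) * i)) ∧
    ∏ i ∈ Ioc M N, (1 - 1 / (((2 : ℕ) : ℚ) * i)) ≤ 1 ∧
    0 < ∏ i ∈ Ioc M N, (1 - 1 / (((2 : ℕ) : ℚ) * i)) := by
  intro N hN
  induction N, hN using Nat.le_induction with
  | base => simp
  | succ N hN ih =>
    obtain ⟨h1, h2, h3⟩ := ih
    rw [show Ioc M (N + 1) = insert (N + 1) (Ioc M N) by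
      ext x; simp only [Finset.mem_Ioc, Finset.mem_insert]; omega,
      Finset.prod_insert (by simp)]
    have hMN : (M : ℚ) ≤ N := by exact_mod_cast hN
    have hM0 : (0 : ℚ) ≤ M := by positivity
    set P := ∏ i ∈ Ioc M N, (1 - 1 / (((2 : ℕ) : ℚ) * i)) with hP
    have hx0 : (0 : ℚ) < 1 / (((2 : ℕ) : ℚ) * ((N + 1 : ℕ) : ℚ)) := by positivity
    have hx1 : (1 : ℚ) / (((2 : ℕ) : ℚ) * ((N + 1 : ℕ) : ℚ)) ≤ 1 / (2 * (M + 1)) := by
      apply one_div_le_one_div_of_le (by positivity)
      push_cast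
      linarith
    have hx2 : (1 : ℚ) / (((2 : ℕ) : ℚ) * ((N + 1 : ℕ) : ℚ)) ≤ 1 / 2 := by
      apply one_div_le_one_div_of_le (by norm_num)
      push_cast
      nlinarith [(by positivity : (0 : ℚ) ≤ N)]
    set x := (1 : ℚ) / (((2 : ℕ) : ℚ) * ((N + 1 : ℕ) : ℚ)) with hx
    refine ⟨?_, ?_, ?_⟩
    · have e : (((N + 1 : ℕ) : ℚ) - M) / (2 * (M + 1)) = ((N : ℚ) - M) / (2 * (M + 1)) +
          1 / (2 * (M + 1)) := by push_cast; ring
      rw [e]
      nlinarith
    · nlinarith
    · apply mul_pos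
      · linarith
      · exact h3

theorem aa_lt {n m : ℕ} (_ : 7 ≤ m) (hmn : m ≤ n) (hnm : n < 2 * m) : aa 2 m < 2 * aa 2 n := by
  have hMN : m / 2 ≤ n / 2 := by omega
  have hsplit : aa 2 n = aa 2 m * ∏ i ∈ Ioc (m / 2) (n / 2), (1 - 1 / (((2 : ℕ) : ℚ) * i)) := by
    unfold aa
    have e : ∀ k : ℕ, Icc 1 k = Ioc 0 k := by
      intro k; ext x; simp only [Finset.mem_Icc, Finset.mem_Ioc]; omega
    rw [e, e, Finset.prod_Ioc_consecutive _ (Nat.zero_le _) hMN]
  have hpos : 0 < aa 2 m := by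
    unfold aa
    apply Finset.prod_pos
    intro i hi
    have h1 : 1 ≤ i := (Finset.mem_Icc.1 hi).1
    have h2 : (1 : ℚ) ≤ i := by exact_mod_cast h1
    have h3 : (1 : ℚ) / (((2 : ℕ) : ℚ) * i) ≤ 1 / 2 := by
      apply one_div_le_one_div_of_le (by norm_num)
      push_cast; linarith
    linarith
  obtain ⟨h1, -, -⟩ := prod_low (m / 2) (n / 2) hMN
  have h2 : ((n / 2 : ℕ) : ℚ) ≤ 2 * ((m / 2 : ℕ) : ℚ) := by
    have : n / 2 ≤ 2 * (m / 2) := by omega
    exact_mod_cast this
  have hM0 : (0 : ℚ) ≤ ((m / 2 : ℕ) : ℚ) := by positivity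
  have h3 : (((n / 2 : ℕ) : ℚ) - ((m / 2 : ℕ) : ℚ)) / (2 * (((m / 2 : ℕ) : ℚ) + 1)) < 1 / 2 := by
    rw [div_lt_iff₀ (by positivity)]
    linarith
  rw [hsplit]
  nlinarith

/-- elements of order `r` of the alternating group are conjugate -/
theorem alt_conj {m r : ℕ} (hr : r.Prime) (hm : m < 2 * r) (hrm : r + 2 ≤ m)
    (x y : alternatingGroup (Fin m)) (hx : orderOf x = r) (hy : orderOf y = r) :
    ∃ g : alternatingGroup (Fin m), g * x * g⁻¹ = y := by
  have hx' : orderOf (x : Equiv.Perm (Fin m)) = r := by rw [← hx]; exact Subgroup.orderOf_coe x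
  have hy' : orderOf (y : Equiv.Perm (Fin m)) = r := by rw [← hy]; exact Subgroup.orderOf_coe y
  have cx : (x : Equiv.Perm (Fin m)).IsCycle :=
    Equiv.Perm.isCycle_of_prime_order' (by rw [hx']; exact hr) (by rw [hx']; simpa using hm)
  have cy : (y : Equiv.Perm (Fin m)).IsCycle :=
    Equiv.Perm.isCycle_of_prime_order' (by rw [hy']; exact hr) (by rw [hy']; simpa using hm)
  have h1 : IsConj (x : Equiv.Perm (Fin m)) (y : Equiv.Perm (Fin m)) :=
    cx.isConj cy (by rw [← cx.orderOf, ← cy.orderOf, hx', hy'])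
  have h2 : IsConj x y := alternatingGroup.isConj_of h1
    (by rw [← cx.orderOf, hx']; simpa using hrm)
  exact isConj_iff.1 h2

/-- RS-TOPF -/
theorem p_topf : TOPF.{u} := by
  intro hQ hC hA hP hR G _ _ X Y hXn hYn n m r hYX heX hcard hreg hm hnm hr hnr hrm hq
  obtain ⟨eX⟩ := heX
  have hm0 : Nontrivial (Fin m) := Fin.nontrivial_iff_two_le.2 (by omega)
  have hcA : 2 * Nat.card (alternatingGroup (Fin m)) = m.factorial := by
    rw [two_mul_nat_card_alternatingGroup, Nat.card_perm, Nat.card_fin]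
  have hsimp : IsSimpleGroup (alternatingGroup (Fin m)) :=
    alternatingGroup.isSimpleGroup (by simp; omega)
  -- m ≤ n
  have hmn : m ≤ n := by
    have h1 : Nat.card (↥X ⧸ Y.subgroupOf X) ∣ Nat.card G :=
      (Subgroup.card_quotient_dvd_card _).trans (Subgroup.card_subgroup_dvd_card X)
    have h2 : Nat.card (↥X ⧸ Y.subgroupOf X) = Nat.card (alternatingGroup (Fin m)) :=
      Nat.card_congr eX.toEquiv
    rw [h2] at h1
    have h3 : m.factorial ∣ n.factorial := by
      rw [← hcA, ← hcard]; exact Nat.mul_dvd_mul_left 2 h1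
    have h4 := Nat.le_of_dvd (Nat.factorial_pos n) h3
    by_contra h5
    rcases Nat.eq_zero_or_pos n with h6 | h6
    · subst h6
      simp at hcard
    · have h7 : n.factorial < m.factorial := Nat.factorial_lt_of_lt h6 (by omega)
      omega
  -- the subgroup K
  have hXY : (X.map (QuotientGroup.mk' Y)).Normal :=
    hXn.map _ (QuotientGroup.mk'_surjective Y)
  let K : Subgroup G := (Subgroup.centralizer
    ((X.map (QuotientGroup.mk' Y) : Subgroup (G ⧸ Y)) : Set (G ⧸ Y))).comap (QuotientGroup.mk' Y)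
  have hKn : K.Normal := by
    show ((Subgroup.centralizer ((X.map (QuotientGroup.mk' Y) : Subgroup (G ⧸ Y)) :
      Set (G ⧸ Y))).comap (QuotientGroup.mk' Y)).Normal
    infer_instance
  have memK : ∀ g : G, g ∈ K ↔ ∀ x ∈ X, g * x * g⁻¹ * x⁻¹ ∈ Y := by
    intro g
    have e : ∀ x : G, ((x * g : G) : G ⧸ Y) = ((g * x : G) : G ⧸ Y) ↔
        g * x * g⁻¹ * x⁻¹ ∈ Y := by
      intro x
      rw [QuotientGroup.eq, hYn.mem_comm_iff]
      have : g * x * (x * g)⁻¹ = g * x * g⁻¹ * x⁻¹ := by group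
      rw [this]
    constructor
    · intro hg x hx
      rw [← e x]
      have h1 := (Subgroup.mem_centralizer_iff.1 (Subgroup.mem_comap.1 hg)) (x : G ⧸ Y)
        (Subgroup.mem_map_of_mem (QuotientGroup.mk' Y) hx)
      exact h1
    · intro h
      refine Subgroup.mem_comap.2 (Subgroup.mem_centralizer_iff.2 ?_)
      rintro _ ⟨x, hx, rfl⟩
      exact (e x).2 (h x hx)
  have hYK : Y ≤ K := by
    intro y hy
    rw [memK]
    intro x hx
    have h1 : x * y⁻¹ * x⁻¹ ∈ Y := hYn.conj_mem _ (Y.inv_mem hy) x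
    have h2 : y * x * y⁻¹ * x⁻¹ = y * (x * y⁻¹ * x⁻¹) := by group
    rw [h2]; exact Y.mul_mem hy h1
  have hKX : ∀ g ∈ X, g ∈ K → g ∈ Y := by
    intro g hgX hgK
    have h1 : eX ((⟨g, hgX⟩ : X) : ↥X ⧸ Y.subgroupOf X) ∈
        Subgroup.center (alternatingGroup (Fin m)) := by
      rw [Subgroup.mem_center_iff]
      intro a
      obtain ⟨b, rfl⟩ := eX.surjective a
      rw [← map_mul, ← map_mul]
      congr 1
      induction b using QuotientGroup.induction_on with
      | H x =>
        rw [← QuotientGroup.mk_mul, ← QuotientGroup.mk_mul, QuotientGroup.eq,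
          Subgroup.mem_subgroupOf]
        have h2 := (memK g).1 hgK x x.2
        have h3 : (((x * ⟨g, hgX⟩)⁻¹ * (⟨g, hgX⟩ * x) : X) : G) =
            (x * g)⁻¹ * (g * x) := rfl
        rw [h3, hYn.mem_comm_iff]
        have h4 : g * (x : G) * ((x : G) * g)⁻¹ = g * x * g⁻¹ * (x : G)⁻¹ := by group
        rw [h4]; exact h2
    rw [alternatingGroup.center_eq_bot (by simp; omega), Subgroup.mem_bot,
      map_eq_one_iff _ eX.injective, QuotientGroup.eq_one_iff, Subgroup.mem_subgroupOf] at h1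
    exact h1
  -- the image of X in G / K
  let φ : X →* G ⧸ K := (QuotientGroup.mk' K).comp X.subtype
  have hφr : φ.range = X.map (QuotientGroup.mk' K) := by
    show ((QuotientGroup.mk' K).comp X.subtype).range = _
    rw [MonoidHom.range_comp, Subgroup.range_subtype]
  have hAn : (φ.range).Normal := by
    rw [hφr]; exact hXn.map _ (QuotientGroup.mk'_surjective K)
  have hφk : φ.ker = Y.subgroupOf X := by
    ext x
    rw [MonoidHom.mem_ker, Subgroup.mem_subgroupOf]
    show ((x : G) : G ⧸ K) = 1 ↔ _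
    rw [QuotientGroup.eq_one_iff]
    exact ⟨fun h => hKX x x.2 h, fun h => hYK h⟩
  have e1 : φ.range ≃* alternatingGroup (Fin m) :=
    ((QuotientGroup.quotientKerEquivRange φ).symm.trans
      (QuotientGroup.quotientMulEquivOfEq hφk)).trans eX
  have hcent : Subgroup.centralizer ((φ.range : Subgroup (G ⧸ K)) : Set (G ⧸ K)) = ⊥ := by
    rw [eq_bot_iff]
    intro b hb
    induction b using QuotientGroup.induction_on with
    | H g =>
      rw [Subgroup.mem_bot, QuotientGroup.eq_one_iff, memK]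
      intro x hx
      have h1 := (Subgroup.mem_centralizer_iff.1 hb) (x : G ⧸ K) ⟨⟨x, hx⟩, rfl⟩
      rw [← QuotientGroup.mk_mul, ← QuotientGroup.mk_mul, QuotientGroup.eq,
        hKn.mem_comm_iff] at h1
      have h4 : g * x * (x * g)⁻¹ = g * x * g⁻¹ * x⁻¹ := by group
      rw [h4] at h1
      exact hKX _ (X.mul_mem (hXn.conj_mem x hx g) (X.inv_mem hx)) h1
  have hGK : Nat.card G = Nat.card (G ⧸ K) * Nat.card K :=
    Subgroup.card_eq_card_quotient_mul_card_subgroup K
  rcases hA (G ⧸ K) φ.range m hm ⟨e1⟩ hcent with hAtop | ⟨⟨eS⟩⟩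
  swap
  · -- the case of the symmetric group
    exfalso
    have h1 := (hQ G K 2 Nat.prime_two).1
    have h2 : Nat.card (G ⧸ K) = m.factorial := by
      rw [Nat.card_congr eS.toEquiv, Nat.card_perm, Nat.card_fin]
    rw [reg_congr eS 2, h2] at h1
    have h3 : ((reg G 2 * m.factorial : ℕ) : ℚ) ≤
        ((reg (Equiv.Perm (Fin m)) 2 * Nat.card G : ℕ) : ℚ) := by exact_mod_cast h1
    push_cast at h3
    rw [hreg, (hR n).2, (hR m).1] at h3
    have h4 : (2 : ℚ) * Nat.card G = n.factorial := by exact_mod_cast hcard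
    have h5 : (0 : ℚ) < n.factorial := by exact_mod_cast Nat.factorial_pos n
    have h6 : (0 : ℚ) < m.factorial := by exact_mod_cast Nat.factorial_pos m
    have h7 := aa_lt hm hmn hnm
    have h8 : (n.factorial : ℚ) * aa 2 n * m.factorial * 2 ≤
        m.factorial * aa 2 m * n.factorial := by
      rw [← h4] at h3 ⊢
      nlinarith
    have h9 : (0 : ℚ) < n.factorial * m.factorial := mul_pos h5 h6
    nlinarith
  -- the case of the alternating group
  have eB : G ⧸ K ≃* alternatingGroup (Fin m) :=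
    ((Subgroup.topEquiv (G := G ⧸ K)).symm.trans (MulEquiv.subgroupCongr hAtop.symm)).trans e1
  have hKcard : Nat.card K * m.factorial = n.factorial := by
    have h1 : Nat.card (G ⧸ K) = Nat.card (alternatingGroup (Fin m)) := Nat.card_congr eB.toEquiv
    rw [← hcA, ← hcard, hGK, h1]; ring
  have hrK : ¬ r ∣ Nat.card K := by
    intro h
    have h1 : r ∣ m.factorial := (hr.dvd_factorial).2 (by omega)
    have h2 : r ^ 2 ∣ n.factorial := by
      rw [← hKcard, pow_two]; exact Nat.mul_dvd_mul h h1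
    exact not_sq_dvd hr n hnr h2
  have hr2 : ¬ r ^ 2 ∣ Nat.card G := by
    intro h
    exact not_sq_dvd hr n hnr (by rw [← hcard]; exact Dvd.dvd.mul_left h 2)
  have hrG : r ∣ Nat.card G := by
    have h1 : r ∣ 2 * Nat.card G := by rw [hcard]; exact (hr.dvd_factorial).2 (by omega)
    rcases (hr.dvd_mul).1 h1 with h2 | h2
    · have := Nat.le_of_dvd (by norm_num) h2
      omega
    · exact h2
  have : Fact r.Prime := ⟨hr⟩
  -- elements of order `r` are not in `K`
  have hord : ∀ x : G, orderOf x = r → orderOf ((x : G) : G ⧸ K) = r := by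
    intro x hx
    have h1 : orderOf ((x : G) : G ⧸ K) ∣ r := by
      rw [← hx]; exact orderOf_map_dvd (QuotientGroup.mk' K) x
    rcases (Nat.dvd_prime hr).1 h1 with h2 | h2
    · exfalso
      rw [orderOf_eq_one_iff, QuotientGroup.eq_one_iff] at h2
      apply hrK
      have h3 : orderOf (⟨x, h2⟩ : K) ∣ Nat.card K := orderOf_dvd_natCard _
      rwa [Subgroup.orderOf_mk, hx] at h3
    · exact h2
  have hconj : ∀ x y : G, orderOf x = r → orderOf y = r → ∃ g : G, g * x * g⁻¹ = y := by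
    intro x y hx hy
    obtain ⟨c, hc⟩ := alt_conj hr (by omega) (by omega) (eB x) (eB y)
      (by rw [MulEquiv.orderOf_eq, hord x hx]) (by rw [MulEquiv.orderOf_eq, hord y hy])
    obtain ⟨d, rfl⟩ := eB.surjective c
    rw [← map_mul, ← map_inv, ← map_mul] at hc
    have hc1 := eB.injective hc
    obtain ⟨g, rfl⟩ := QuotientGroup.mk_surjective d
    have hc2 : ((g * x * g⁻¹ : G) : G ⧸ K) = (y : G ⧸ K) := hc1
    set u := g * x * g⁻¹ with hu
    have huo : orderOf u = r := by
      rw [← hx, hu]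
      exact MulEquiv.orderOf_eq (MulAut.conj g) x
    let P : Subgroup G := (Subgroup.zpowers ((y : G) : G ⧸ K)).comap (QuotientGroup.mk' K)
    have hyP : y ∈ P := Subgroup.mem_comap.2 (Subgroup.mem_zpowers _)
    have huP : u ∈ P := by
      refine Subgroup.mem_comap.2 ?_
      show ((u : G) : G ⧸ K) ∈ _
      rw [hc2]; exact Subgroup.mem_zpowers _
    have hP2 : ¬ r ^ 2 ∣ Nat.card P := fun h => hr2 (h.trans (Subgroup.card_subgroup_dvd_card P))
    obtain ⟨p, hp⟩ := conj_of_card hr hP2 (Subgroup.zpowers (⟨u, huP⟩ : P))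
      (Subgroup.zpowers (⟨y, hyP⟩ : P)) (by rw [Nat.card_zpowers, Subgroup.orderOf_mk, huo])
      (by rw [Nat.card_zpowers, Subgroup.orderOf_mk, hy])
    have h1 := hp _ (Subgroup.mem_zpowers _)
    obtain ⟨i, hi⟩ := Subgroup.mem_zpowers_iff.1 h1
    have h2 : y ^ i = (p : G) * u * (p : G)⁻¹ := by
      have := congrArg (Subtype.val) hi
      simpa using this
    -- in the quotient
    obtain ⟨j, hj⟩ := Subgroup.mem_zpowers_iff.1 (Subgroup.mem_comap.1 p.2)
    have h3 : ((y ^ i : G) : G ⧸ K) = (y : G ⧸ K) := by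
      rw [h2]
      have hj' : ((p : G) : G ⧸ K) = ((y : G) : G ⧸ K) ^ j := hj.symm
      rw [QuotientGroup.mk_mul, QuotientGroup.mk_mul, QuotientGroup.mk_inv, hj', hc2]
      rw [← zpow_add_one, ← zpow_neg, ← zpow_add]
      simp
    have h4 : y ^ i = y := by
      have h5 : ((y : G) : G ⧸ K) ^ (i - 1) = 1 := by
        rw [zpow_sub_one, ← QuotientGroup.mk_zpow, h3, mul_inv_cancel]
      have h6 : (r : ℤ) ∣ i - 1 := by
        rw [← hord y hy]; exact orderOf_dvd_iff_zpow_eq_one.2 h5
      have h7 : y ^ (i - 1) = 1 := by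
        rw [← orderOf_dvd_iff_zpow_eq_one, hy]; exact h6
      rw [zpow_sub_one] at h7
      exact mul_inv_eq_one.1 h7
    refine ⟨(p : G) * g, ?_⟩
    rw [← h4, h2, hu]; group
  obtain ⟨g0, hg0⟩ := exists_prime_orderOf_dvd_card' r hrG
  have hRcard : Nat.card (Subgroup.zpowers g0) = r := by rw [Nat.card_zpowers, hg0]
  have hKq : n.factorial / m.factorial = Nat.card K := by
    rw [← hKcard]; exact Nat.mul_div_cancel _ (Nat.factorial_pos m)
  have hRle : Subgroup.zpowers g0 ≤ Subgroup.centralizer (K : Set G) := by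
    refine hP G K (Subgroup.zpowers g0) r hr hRcard hrK ?_ ?_
    · intro x hx y hy hx1 hy1
      have ho : ∀ z ∈ Subgroup.zpowers g0, z ≠ 1 → orderOf z = r := by
        intro z hz hz1
        have h1 : orderOf (⟨z, hz⟩ : Subgroup.zpowers g0) ∣ Nat.card (Subgroup.zpowers g0) :=
          orderOf_dvd_natCard _
        rw [Subgroup.orderOf_mk, hRcard] at h1
        rcases (Nat.dvd_prime hr).1 h1 with h2 | h2
        · exact absurd (orderOf_eq_one_iff.1 h2) hz1
        · exact h2
      exact hconj x y (ho x hx hx1) (ho y hy hy1)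
    · intro q hq'
      rw [← hKq]; exact hq q hq'
  -- the centralizer covers the quotient
  have hsB : IsSimpleGroup (G ⧸ K) := (MulEquiv.isSimpleGroup_congr eB).2 hsimp
  have hDn : ((Subgroup.centralizer (K : Set G)).map (QuotientGroup.mk' K)).Normal :=
    (Subgroup.normal_centralizer (H := K)).map _ (QuotientGroup.mk'_surjective K)
  have hD : (Subgroup.centralizer (K : Set G)).map (QuotientGroup.mk' K) = ⊤ := by
    rcases hDn.eq_bot_or_eq_top with h | h
    · exfalso
      have h1 : ((g0 : G) : G ⧸ K) ∈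
          (Subgroup.centralizer (K : Set G)).map (QuotientGroup.mk' K) :=
        Subgroup.mem_map_of_mem (QuotientGroup.mk' K) (hRle (Subgroup.mem_zpowers g0))
      rw [h, Subgroup.mem_bot] at h1
      have h2 := hord g0 hg0
      rw [h1, orderOf_one] at h2
      exact hr.one_lt.ne h2
    · exact h
  have hsup : K ⊔ Subgroup.centralizer (K : Set G) = ⊤ := by
    rw [eq_top_iff]
    intro g _
    have h1 : ((g : G) : G ⧸ K) ∈
        (Subgroup.centralizer (K : Set G)).map (QuotientGroup.mk' K) := by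
      rw [hD]; exact Subgroup.mem_top _
    obtain ⟨c, hc, hcg⟩ := h1
    have hcg' : ((c : G) : G ⧸ K) = (g : G ⧸ K) := hcg
    rw [QuotientGroup.eq] at hcg'
    have h2 : g = c * (c⁻¹ * g) := by group
    rw [h2]
    exact Subgroup.mul_mem _ (Subgroup.mem_sup_right hc) (Subgroup.mem_sup_left hcg')
  refine ⟨K, hKn, hmn, hKcard, ⟨eB⟩, fun p hp => ?_⟩
  rw [hC G K p hp hsup, reg_congr eB p]

end Pool.Agent.Helper7.RS
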